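import Pool.Agent.Helper99.WP.GoalsE

/-!
# WP, goal VMS: measurability of the probabilities `vis`
-/

open Finset MeasureTheory

namespace Pool.Agent.Helper5.WP

open Pool.Agent.Helper99.WP Pool.Agent.Helper99.ERW

lemma measurable_arrW {d : ℕ} (Λ : Finset (Site d)) (y : Λ) (k : ℕ) (c : Option Λ) :
    Measurable (fun ω : Env d => arrW ω Λ y k c) := by
  cases c with
  | none =>
    simp only [arrW]
    refine Finset.measurable_sum _ fun e _ => ?_
    split_ifs
    · exact measurable_const
    · fun_prop
  | some z =>
    simp only [arrW]
    refine Finset.measurable_sum _ fun e _ => ?_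
    split_ifs
    · fun_prop
    · exact measurable_const

theorem VMS : VMS_stmt := by
  intro d Λ N x i
  unfold vis
  refine Finset.measurable_sum _ fun a _ => ?_
  refine Measurable.mul_const ?_ _
  unfold prb
  refine Finset.measurable_prod _ fun y _ => ?_
  refine Finset.measurable_prod _ fun k _ => ?_
  exact measurable_arrW Λ y k (a y k)

end Pool.Agent.Helper5.WP
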